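import Pool.Agent.Helper94.BA.Node

/-!
# Project BA, module R3: merging two conditions with equal stems
-/

set_option autoImplicit false
set_option linter.unusedSectionVars false

namespace Pool.Agent.Helper94.BA

open Pool.Agent.Helper33.HM

universe u v

namespace Raw

variable {P₀ : Type u} {I : Type v}

/-- the number of entries -/
def h29_len : Raw P₀ I → ℕ
  | .nil _ => 0
  | .cons p _ _ _ _ _ => h29_len p + 1

variable [Preorder P₀] [LinearOrder I]

/-- adding an entry to the stronger condition -/
theorem h29_le_cons {p r : Raw P₀ I} (h : Le p r) (i : I) (s : List Bool) (m : ℕ)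
    (f : ℕ → ℕ → ℕ → Raw P₀ I) (v : ℕ → ℕ → ℕ → Bool) : Le p (.cons r i s m f v) := by
  rw [Le_iff] at h ⊢
  refine ⟨h.1, ?_⟩
  intro j p' s' m' f' v' he
  obtain ⟨q', t, M, g, w, h1, h2⟩ := h.2 j p' s' m' f' v' he
  exact ⟨q', t, M, g, w, Or.inr h1, h2⟩

/-- adding the same last entry, with more names in the stronger condition -/
theorem h29_cons_le_cons {p r : Raw P₀ I} {i : I} {s : List Bool} {m M : ℕ}
    {f F : ℕ → ℕ → ℕ → Raw P₀ I} {v V : ℕ → ℕ → ℕ → Bool} (h : Le p r)
    (hn : ∀ l < m, ∃ l' < M, F l' = f l ∧ V l' = v l) :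
    Le (.cons p i s m f v) (.cons r i s M F V) :=
  ⟨h29_le_cons h i s M F V, r, s, M, F, V, Or.inl ⟨rfl, rfl, rfl, rfl, rfl, rfl⟩,
    List.prefix_rfl, hn, fun _ h1 h2 => absurd h1 (not_lt.2 h2)⟩

theorem h29_common {F : I → Set (Name P₀ I)} (a : P₀) (n : ℕ) : ∀ p q : Raw P₀ I,
    h29_len p + h29_len q ≤ n → p.Valid F → q.Valid F → a ≤ p.base → a ≤ q.base →
    (∀ i p' s m f v q' t m' g w, p.Entry i p' s m f v → q.Entry i q' t m' g w → s = t) →
    ∃ r : Raw P₀ I, r.Valid F ∧ r.base = a ∧ Le p r ∧ Le q r ∧
      ∀ i, p.lt i → q.lt i → r.lt i := by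
  induction n with
  | zero =>
    intro p q hn hp hq ha hb _
    cases p with
    | cons p1 i s m f v =>
      exfalso
      have : h29_len (Raw.cons p1 i s m f v) = h29_len p1 + 1 := rfl
      omega
    | nil b =>
      cases q with
      | cons q1 i s m f v =>
        exfalso
        have : h29_len (Raw.cons q1 i s m f v) = h29_len q1 + 1 := rfl
        omega
      | nil c =>
        exact ⟨.nil a, trivial, rfl, ha, hb, fun _ _ _ => trivial⟩
  | succ n ih =>
    intro p q hn hp hq ha hb h
    cases p with
    | nil b =>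
      cases q with
      | nil c => exact ⟨.nil a, trivial, rfl, ha, hb, fun _ _ _ => trivial⟩
      | cons q1 j t m' g w =>
        obtain ⟨r, hr, hra, h1, h2, h3⟩ := ih (.nil b) q1
          (by
            have : h29_len (Raw.cons q1 j t m' g w) = h29_len q1 + 1 := rfl
            omega) trivial hq.1 ha hb
          (fun k p' s' M f' v' q' t' M' g' w' h1 _ => h1.elim)
        exact ⟨.cons r j t m' g w, ⟨hr, h3 j trivial hq.2.1, hq.2.2⟩, hra,
          h29_le_cons h1 _ _ _ _ _, h29_cons_le_cons h2 fun l hl => ⟨l, hl, rfl, rfl⟩,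
          fun k _ hk => hk⟩
    | cons p1 i s m f v =>
      have e1 : h29_len (Raw.cons p1 i s m f v) = h29_len p1 + 1 := rfl
      cases q with
      | nil c =>
        obtain ⟨r, hr, hra, h1, h2, h3⟩ := ih p1 (.nil c) (by omega) hp.1 trivial ha hb
          (fun k p' s' M f' v' q' t' M' g' w' _ h1 => h1.elim)
        exact ⟨.cons r i s m f v, ⟨hr, h3 i hp.2.1 trivial, hp.2.2⟩, hra,
          h29_cons_le_cons h1 fun l hl => ⟨l, hl, rfl, rfl⟩, h29_le_cons h2 _ _ _ _ _,
          fun k hk _ => hk⟩
      | cons q1 j t m' g w =>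
        have e2 : h29_len (Raw.cons q1 j t m' g w) = h29_len q1 + 1 := rfl
        rcases lt_trichotomy i j with hij | rfl | hij
        · -- the last entry is the one of `q`
          obtain ⟨r, hr, hra, h1, h2, h3⟩ := ih (.cons p1 i s m f v) q1 (by omega) hp hq.1 ha hb
            (fun k p' s' M f' v' q' t' M' g' w' h1 h2 =>
              h k p' s' M f' v' q' t' M' g' w' h1 (Or.inr h2))
          exact ⟨.cons r j t m' g w, ⟨hr, h3 j hij hq.2.1, hq.2.2⟩, hra,
            h29_le_cons h1 _ _ _ _ _, h29_cons_le_cons h2 fun l hl => ⟨l, hl, rfl, rfl⟩,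
            fun k _ hk => hk⟩
        · -- common index
          have hst : s = t := h i p1 s m f v q1 t m' g w
            (Or.inl ⟨rfl, rfl, rfl, rfl, rfl, rfl⟩) (Or.inl ⟨rfl, rfl, rfl, rfl, rfl, rfl⟩)
          subst hst
          obtain ⟨r, hr, hra, h1, h2, h3⟩ := ih p1 q1 (by omega) hp.1 hq.1 ha hb
            (fun k p' s' M f' v' q' t' M' g' w' h1 h2 =>
              h k p' s' M f' v' q' t' M' g' w' (Or.inr h1) (Or.inr h2))
          refine ⟨.cons r i s (m + m') (fun l => if l < m then f l else g (l - m))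
            (fun l => if l < m then v l else w (l - m)),
            ⟨hr, h3 i hp.2.1 hq.2.1, ?_, ?_⟩, hra, h29_cons_le_cons h1 ?_,
            h29_cons_le_cons h2 ?_, fun k hk _ => hk⟩
          · intro l n k
            by_cases hl : l < m
            · simp only [if_pos hl]
              exact hp.2.2.1 l n k
            · simp only [if_neg hl]
              exact hq.2.2.1 (l - m) n k
          · intro l hl
            by_cases hlm : l < m
            · simp only [if_pos hlm]
              exact hp.2.2.2 l hlm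
            · simp only [if_neg hlm]
              exact hq.2.2.2 (l - m) (by omega)
          · intro l hl
            exact ⟨l, by omega, by simp [hl], by simp [hl]⟩
          · intro l hl
            exact ⟨m + l, by omega, by simp, by simp⟩
        · -- the last entry is the one of `p`
          obtain ⟨r, hr, hra, h1, h2, h3⟩ := ih p1 (.cons q1 j t m' g w) (by omega) hp.1 hq ha hb
            (fun k p' s' M f' v' q' t' M' g' w' h1 h2 =>
              h k p' s' M f' v' q' t' M' g' w' (Or.inr h1) h2)
          exact ⟨.cons r i s m f v, ⟨hr, h3 i hp.2.1 hij, hp.2.2⟩, hra,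
            h29_cons_le_cons h1 fun l hl => ⟨l, hl, rfl, rfl⟩, h29_le_cons h2 _ _ _ _ _,
            fun k hk _ => hk⟩

end Raw

section

variable {P₀ I : Type u} [Preorder P₀] [LinearOrder I]
variable {F : I → Set (Name P₀ I)} {ℓ : I}

/-- Two conditions with the same stems at all common indices have a common extension with any
prescribed base part below both base parts. -/
theorem h29_exists_common (p q : Cnd F ℓ) (a : P₀) (hap : a ≤ p.1.base) (haq : a ≤ q.1.base)
    (h : ∀ i p' s m f v q' t m' g w, p.1.Entry i p' s m f v → q.1.Entry i q' t m' g w → s = t) :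
    ∃ r : Cnd F ℓ, r ≤ p ∧ r ≤ q ∧ r.1.base = a := by
  obtain ⟨r, hr, hra, h1, h2, h3⟩ := Raw.h29_common a _ p.1 q.1 le_rfl p.2.1 q.2.1 hap haq h
  exact ⟨⟨r, hr, h3 ℓ p.2.2 q.2.2⟩, h1, h2, hra⟩

/-- Two conditions with the same stems at all common indices have a common extension, over any
common extension of the base parts. -/
theorem exists_common (p q : Cnd F ℓ) (a : P₀) (hap : a ≤ p.1.base) (haq : a ≤ q.1.base)
    (h : ∀ i p' s m f v q' t m' g w, p.1.Entry i p' s m f v → q.1.Entry i q' t m' g w → s = t) :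
    ∃ r : Cnd F ℓ, r ≤ p ∧ r ≤ q := by
  obtain ⟨r, h1, h2, _⟩ := h29_exists_common p q a hap haq h
  exact ⟨r, h1, h2⟩

end

end Pool.Agent.Helper94.BA
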