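import Pool.Agent.Helper29.BA.ACDef
import Pool.Agent.Helper29.BA.Common
import Pool.Agent.Helper68.HM.Delta

/-!
# Project BA, module R4: the countable chain condition for the iteration
-/

set_option autoImplicit false
set_option linter.unusedSectionVars false

namespace Pool.Agent.Helper94.BA

open Pool.Agent.Helper33.HM

universe u v

theorem Raw.h29_supp {P₀ : Type u} {I : Type v} (p : Raw P₀ I) :
    ∃ S : Finset I, ∀ i q s m f v, p.Entry i q s m f v → i ∈ S := by
  classical
  induction p with
  | nil => exact ⟨∅, fun _ _ _ _ _ _ h => h.elim⟩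
  | cons p j s m f v ih _ =>
    obtain ⟨F, hF⟩ := ih
    refine ⟨insert j F, ?_⟩
    intro i q s' m' f' v' h
    rcases h with h | h
    · rw [h.1]; exact Finset.mem_insert_self _ _
    · exact Finset.mem_insert_of_mem (hF _ _ _ _ _ _ h)

variable {P₀ I : Type u} [Preorder P₀] [LinearOrder I]
variable {F : I → Set (Name P₀ I)} {ℓ : I}

/-- A family of uncountably many conditions indexed by `J`: two of them with different indices
have a common lower bound. -/
theorem AC.h29_pair {P : Type u} [Preorder P] (h₀ : AC P) {ι : Type v} {J : Set ι}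
    (hJ : ¬ J.Countable) (b : ι → P) : ∃ p ∈ J, ∃ q ∈ J, p ≠ q ∧ ∃ r : P, r ≤ b p ∧ r ≤ b q := by
  by_contra hcon
  push Not at hcon
  have hinj : Set.InjOn b J := by
    intro p hp q hq hpq
    by_contra hne
    exact hcon p hp q hq hne (b p) le_rfl hpq.le
  have hc : (b '' J).Countable := by
    apply h₀
    rintro _ ⟨p, hp, rfl⟩ _ ⟨q, hq, rfl⟩ hne ⟨r, hr, hr'⟩
    exact hcon p hp q hq (fun h => hne (congrArg b h)) r hr hr'
  exact hJ (Set.countable_of_injective_of_countable_image hinj hc)

theorem cnd_ac (h₀ : AC P₀) : AC (Cnd F ℓ) := by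
  classical
  intro A h
  by_contra hA
  choose S hS using fun p : A => Raw.h29_supp p.1.1
  have hun : ¬ (Set.univ : Set A).Countable := by
    rw [Set.countable_univ_iff]
    exact hA
  obtain ⟨J, hJ, R, hR⟩ := Cond.exists_delta S hun
  -- the stems on the root
  let st : A → R → List Bool := fun p i =>
    if h : ∃ s q m f v, p.1.1.Entry i.1 q s m f v then h.choose else []
  have hst : ∀ (p : A) (i : R) q s m f v, p.1.1.Entry i.1 q s m f v → st p i = s := by
    intro p i q s m f v he
    have h : ∃ s q m f v, p.1.1.Entry i.1 q s m f v := ⟨s, q, m, f, v, he⟩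
    obtain ⟨q', m', f', v', he'⟩ := h.choose_spec
    simp only [st, dif_pos h]
    exact (Raw.Entry.unique p.1.2.1.wf he' he).2.1
  -- uncountably many conditions have the same stems
  have hfib : ∃ t : R → List Bool, ¬ {p | p ∈ J ∧ st p = t}.Countable := by
    by_contra hcon
    push Not at hcon
    apply hJ
    have hc : (⋃ t : R → List Bool, {p | p ∈ J ∧ st p = t}).Countable :=
      Set.countable_iUnion hcon
    refine hc.mono fun p hp => ?_
    rw [Set.mem_iUnion]
    exact ⟨st p, hp, rfl⟩
  obtain ⟨t, ht⟩ := hfib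
  obtain ⟨p, hp, q, hq, hne, r, hrp, hrq⟩ := h₀.h29_pair ht fun p : A => p.1.1.base
  have hne' : p.1 ≠ q.1 := fun h => hne (Subtype.ext h)
  refine h p.1 p.2 q.1 q.2 hne' (exists_common p.1 q.1 r hrp hrq ?_)
  intro i p' s m f v q' t' m' g w he he'
  have hi : i ∈ R := by
    rw [← hR p hp.1 q hq.1 hne]
    exact Finset.mem_inter.2 ⟨hS p _ _ _ _ _ _ he, hS q _ _ _ _ _ _ he'⟩
  rw [← hst p ⟨i, hi⟩ _ _ _ _ _ he, ← hst q ⟨i, hi⟩ _ _ _ _ _ he', hp.2, hq.2]

end Pool.Agent.Helper94.BA
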