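import Mathlib

/-!
# Project BA: the countable chain condition for preorders
-/

set_option autoImplicit false

namespace Pool.Agent.Helper94.BA

universe u

/-- Antichains are countable. -/
def AC (P : Type u) [Preorder P] : Prop :=
  ∀ A : Set P, (∀ p ∈ A, ∀ q ∈ A, p ≠ q → ¬ ∃ r : P, r ≤ p ∧ r ≤ q) → A.Countable

end Pool.Agent.Helper94.BA
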